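import Pool.Agent.TH308.QM.KeyW
import Pool.Agent.TH183.QN.Generic

/-! Emptiness of plane systems with quasimonomial conditions of total weight at least nine. -/

set_option autoImplicit false

namespace Pool.Agent.TH308.QM

open Finset Pool.Agent.TH183.QN Pool.Agent.TH181.NagM Pool.Agent.TH183.QT
open Pool.Agent.TH176.Nag (Reg)

/-- from the trapezoid of slope `τ` to the right triangle -/
theorem Mv_tube {n τ : ℝ} (hn : 9 ≤ n) (k : ℤ) (hk : 3 * (1 + τ) + (k : ℝ) = 3 * √n - 9) :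
    Mv (3 * (1 + τ)) (3 * (2 - τ)) 0 n := by
  obtain ⟨r, hr⟩ : ∃ r, r = √n := ⟨_, rfl⟩
  have hr2 : r ^ 2 = n := by rw [hr]; exact Real.sq_sqrt (by linarith)
  have hr3 : 3 ≤ r := by rw [hr]; exact Real.le_sqrt_of_sq_le (by linarith)
  rw [← hr] at hk
  refine Mv.shear k ?_
  have e2 : 3 * (2 - τ) - ((k : ℤ) : ℝ) = 18 - 3 * r := by linarith
  rw [hk, e2]
  refine Mv.stepA 1 9 isCoprime_one_left (by norm_num) ?_ ?_ ?_ ?_
  · push_cast; linarith
  · push_cast; linarith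
  · linarith
  have e3 : ((1 : ℤ) : ℝ) * (((1 : ℤ) : ℝ) * (3 * r - 9) + ((9 : ℤ) : ℝ)) = 3 * r := by
    push_cast; ring
  have e4 : (((9 : ℤ) : ℝ) - ((1 : ℤ) : ℝ) * (18 - 3 * r)) *
      (((1 : ℤ) : ℝ) * (3 * r - 9) + ((9 : ℤ) : ℝ)) / (3 * r - 9 + (18 - 3 * r)) =
      r ^ 2 - 3 * r := by
    push_cast
    rw [show (3 * r - 9 + (18 - 3 * r) : ℝ) = 9 by ring, div_eq_iff (by norm_num)]
    ring
  rw [e3, e4]
  have h := Mv.toRT (μ := 3 * r) (ν := r ^ 2 - 3 * r) (by nlinarith)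
  have e5 : 3 * r + (r ^ 2 - 3 * r) = n := by rw [← hr2]; ring
  rwa [e5] at h

/-- **Nagata's conjecture for quasimonomial valuations**, emptiness for special germs: weights
`t i` with sum at least nine -/
theorem EmpW_plane {ι : Type} [Fintype ι] {t c : ι → ℝ} (ht : ∀ i, 0 ≤ t i) (hn : 9 ≤ ∑ i, t i)
    {d : ℕ} (h : (d : ℝ) * √(∑ i, t i) < ∑ i, c i) : EmpW t c (TT d) := by
  obtain ⟨n, hn'⟩ : ∃ n, n = ∑ i, t i := ⟨_, rfl⟩
  rw [← hn'] at hn h
  have hn0 : 0 < n := by linarith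
  have hs : 0 < √n := Real.sqrt_pos.2 hn0
  obtain ⟨τ, hτ⟩ : ∃ τ : ℝ, τ = (1 + Int.fract (3 * √n)) / 3 := ⟨_, rfl⟩
  have hf0 : 0 ≤ Int.fract (3 * √n) := Int.fract_nonneg _
  have hf1 : Int.fract (3 * √n) < 1 := Int.fract_lt_one _
  have h0 : 0 < τ := by rw [hτ]; linarith
  have h1 : τ < 1 := by rw [hτ]; linarith
  refine EmpW_key ht h0 h1 ?_
  have hM : Mv (3 * (1 + τ)) (3 * (2 - τ)) 0 n := by
    refine Mv_tube hn (⌊3 * √n⌋ - 13) ?_
    have := Int.floor_add_fract (3 * √n)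
    push_cast
    rw [hτ]
    linarith
  have hS : Shp (fun (c : ι → ℝ) S => EmpW t c S) (sz √n) (3 * (1 + τ)) (3 * (2 - τ)) :=
    hM.closed ((EmpW.sys ht).closed (sz_sc √n)) (shp_final ht hn0 hn')
  have hB : (d : ℝ) < (∑ i, c i) / √n := by rwa [lt_div_iff₀ hs]
  obtain ⟨E, hE1, hE2⟩ := exists_between hB
  have h2 := hS c E (lt_of_le_of_lt (Nat.cast_nonneg d) hE1) (by unfold sz; exact hE2)
    (-((d : ℝ) * (1 + τ)))
  refine h2.mono ?_
  rintro m ⟨k1, k2, k3⟩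
  refine ⟨k1, k2, k3.trans ?_⟩
  have e1 : 3 * (1 + τ) + 3 * (2 - τ) = 3 ^ 2 := by ring
  rw [e1, Real.sqrt_sq (by norm_num)]
  linarith

/-- one degree and one bound -/
theorem degLE_nine {t B : ℝ} (ht : 9 ≤ t) {d : ℕ} (hd : (d : ℝ) * √t < B) : DegLE d t B := by
  have h0 : EmpW (fun _ : Unit => t) (fun _ => B) (TT d) := by
    refine EmpW_plane (fun _ => by linarith) (by simpa using ht) ?_
    simpa using hd
  obtain ⟨D, hD, hD'⟩ := h0.generic (by linarith)
  refine ⟨MvPolynomial.map (algebraMap ℚ ℂ) D, ?_, ?_⟩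
  · intro h0
    exact hD ((MvPolynomial.map_injective _ (algebraMap ℚ ℂ).injective) (by rw [h0, map_zero]))
  · intro c hc f hf hf0
    rw [MvPolynomial.eval_map, ← MvPolynomial.aeval_def] at hc
    by_contra hcon
    apply hf0
    have h1 := hD' ℂ c hc (fun m => MvPolynomial.coeff m.1 f) (by
      intro i j hij
      rw [← coeff_expand_form c hf]
      by_contra hne
      exact hcon ⟨i, j, hne, hij.le⟩)
    ext m
    rw [MvPolynomial.coeff_zero]
    by_cases hm : m ∈ exps d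
    · exact congrFun h1 ⟨m, hm⟩
    · apply hf.coeff_eq_zero
      rw [mem_exps] at hm
      exact hm

/-- **Nagata's conjecture for very general quasimonomial valuations** -/
theorem nearMinimal_nine {t : ℝ} (ht : 9 ≤ t) : NearMinimal 1 t := by
  rw [nearMinimal_iff (by linarith)]
  intro d
  apply degLE_of_all_gt (by linarith)
  intro ε hε
  exact degLE_nine ht (by linarith)

end Pool.Agent.TH308.QM
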