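import Pool.Agent.TH308.QM.Swap
import Pool.Agent.TH183.QN.Chart
import Pool.Agent.TH603.EL.Van1
import Pool.Agent.TH603.EL.Van2
import Pool.Agent.TH603.EL.TubeH

/-! The germs on the tube. -/

set_option autoImplicit false

namespace Pool.Agent.TH308.QM

open Pool.Agent.TH183.QN Pool.Agent.TH603.EL
open Pool.Agent.TH176.Nag (evL mon)

variable {F : Type} [Field F]

/-- the derivative of the value of a Laurent polynomial -/
theorem dl_evA (X Y : (PS F)ˣ) (f : Lau F) :
    dl (evA X Y f) = f.coeff.sum fun m c =>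
      c * (cc (X : PS F) ^ m.1 * cc (Y : PS F) ^ m.2 * (m.1 * ld X + m.2 * ld Y)) := by
  rw [evA_apply]
  unfold Pool.Agent.TH183.QN.ev Finsupp.sum
  have hl : ∀ (s : Finset (ℤ × ℤ)) (g : ℤ × ℤ → PS F), dl (∑ m ∈ s, g m) = ∑ m ∈ s, dl (g m) :=
    fun s g => by unfold dl; rw [map_sum]
  rw [hl]
  refine Finset.sum_congr rfl fun m _ => ?_
  show dl (f.coeff m • ((X ^ m.1 * Y ^ m.2 : (PS F)ˣ) : PS F)) = f.coeff m * _
  rw [← dl_zpow]
  unfold dl
  rw [MvPowerSeries.coeff_smul]

theorem dl_evA_row (X Y : (PS F)ˣ) (f : Lau F) (hX : ld X = 0)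
    (hf : ∀ i j : ℤ, f.coeff (i, j) ≠ 0 → j = 0) : dl (evA X Y f) = 0 := by
  rw [dl_evA]
  refine Finset.sum_eq_zero fun m hm => ?_
  have h1 := hf m.1 m.2 (Finsupp.mem_support_iff.1 hm)
  show f.coeff m * (cc (X : PS F) ^ m.1 * cc (Y : PS F) ^ m.2 * (m.1 * ld X + m.2 * ld Y)) = 0
  rw [hX, h1]
  simp

theorem dl_evA_single (X Y : (PS F)ˣ) (i j : ℤ) :
    dl (evA X Y (AddMonoidAlgebra.single (i, j) 1)) =
      cc (X : PS F) ^ i * cc (Y : PS F) ^ j * (i * ld X + j * ld Y) := by
  have h := evA_mon X Y (i, j)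
  unfold mon at h
  rw [h, dl_zpow]

theorem low_theta0 {τ : ℝ} (h0 : 0 < τ) (h1 : τ < 1) : Low (theta F τ 0) 0 := by
  intro a ha
  ext ⟨i, j⟩
  have := cf_theta (F := F) τ 0 a i j
  unfold Pool.Agent.TH603.EL.cf at this
  rw [this, if_neg]
  · simp
  · rintro ⟨_, hi, hx⟩
    by_cases hne : i = 0
    · subst hne
      have := Pool.Agent.TH603.EL.TubeH.two_ex τ 0
      push_cast at this
      linarith
    · have := Pool.Agent.TH603.EL.TubeH.ex0 h0 h1 hi hne
      linarith

/-- the exponents of the first theta function -/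
theorem theta0_gap {τ : ℝ} (h0 : 0 < τ) (h1 : τ < 1) {a : ℝ} (ha : a < 3) (ha0 : a ≠ 0) :
    (theta F τ 0).coeff a = 0 := by
  ext ⟨i, j⟩
  have := cf_theta (F := F) τ 0 a i j
  unfold Pool.Agent.TH603.EL.cf at this
  rw [this, if_neg]
  · simp
  · rintro ⟨_, hi, hx⟩
    by_cases hne : i = 0
    · subst hne
      have := Pool.Agent.TH603.EL.TubeH.two_ex τ 0
      push_cast at this
      apply ha0
      linarith
    · obtain ⟨k, hk⟩ := Pool.Agent.TH603.EL.TubeH.mod_cases i 0 (by simpa using hi)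
      have h := Pool.Agent.TH603.EL.TubeH.two_ex τ i
      have h3 : 3 ≤ i ∨ i ≤ -3 := by omega
      rcases h3 with h3 | h3
      · have h4 : (3 : ℝ) ≤ i := by exact_mod_cast h3
        nlinarith
      · have h4 : (i : ℝ) ≤ -3 := by exact_mod_cast h3
        nlinarith

theorem dl_zero' : dl (0 : PS F) = 0 := by unfold dl; rw [map_zero]

variable (X Y : (PS F)ˣ) {τ s : ℝ}

theorem dl_tube0 (h0 : 0 < τ) (h1 : τ < 1) : Low (dl (evg X Y (tube F τ s 0))) 3 := by
  intro a ha
  have ht : tube F τ s 0 = theta F τ 0 := by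
    unfold tube
    rw [if_neg (by decide), add_zero]
  rw [dl_evg, ht]
  by_cases ha0 : a = 0
  · rw [ha0, coeff_theta0 h0 h1, map_one, dl_one]
  · rw [theta0_gap h0 h1 ha ha0, map_zero, dl_zero']

theorem dl_tube_row (hX : ld X = 0) {l : ZMod 3} (hl : l ≠ 2) : dl (evg X Y (tube F τ s l)) = 0 := by
  have ht : tube F τ s l = theta F τ l := by
    unfold tube
    rw [if_neg hl, add_zero]
  ext a
  rw [dl_evg, ht, dl_evA_row X Y _ hX, HahnSeries.coeff_zero]
  intro i j hij
  have := cf_theta (F := F) τ l a i j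
  unfold Pool.Agent.TH603.EL.cf at this
  rw [this] at hij
  by_contra hj
  rw [if_neg (fun h => hj h.1)] at hij
  exact hij rfl

theorem cc_tube0 (h0 : 0 < τ) (h1 : τ < 1) :
    Low (cc (evg X Y (tube F τ s 0))) 0 ∧ (cc (evg X Y (tube F τ s 0))).coeff 0 = 1 := by
  have ht : tube F τ s 0 = theta F τ 0 := by
    unfold tube
    rw [if_neg (by decide), add_zero]
  constructor
  · intro a ha
    rw [cc_evg, evp_coeff, ht, low_theta0 h0 h1 a ha, map_zero]
  · rw [cc_evg, evp_coeff, ht, coeff_theta0 h0 h1, map_one]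

theorem cc_tube1 (h0 : 0 < τ) (h1 : τ < 1) : Low (cc (evg X Y (tube F τ s 1))) τ := by
  have ht : tube F τ s 1 = theta F τ 1 := by
    unfold tube
    rw [if_neg (by decide), add_zero]
  intro a ha
  rw [cc_evg, evp_coeff, ht, low_theta1 h0 h1 a ha, map_zero]

theorem dl_tube1 (h0 : 0 < τ) (h1 : τ < 1) :
    Low (dl (evg X Y (tube F τ s 1))) τ ∧
      (dl (evg X Y (tube F τ s 1))).coeff τ = cc (X : PS F) * ld X := by
  have ht : tube F τ s 1 = theta F τ 1 := by
    unfold tube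
    rw [if_neg (by decide), add_zero]
  constructor
  · intro a ha
    rw [dl_evg, ht, low_theta1 h0 h1 a ha, map_zero, dl_zero']
  · rw [dl_evg, ht, coeff_theta1 h0 h1, dl_evA_single]
    simp

/-- the value of a Laurent polynomial in the second coordinate -/
theorem dl_tube2 (hX : ld X = 0) : (dl (evg X Y (tube F τ s 2))).coeff s =
    cc (Y : PS F) * ld Y := by
  have ht : tube F τ s 2 = theta F τ 2 + tz F s 0 1 := by
    unfold tube
    rw [if_pos rfl]
  rw [dl_evg, ht, HahnSeries.coeff_add, map_add, dl_add, dl_evA_row X Y _ hX, zero_add]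
  · unfold tz
    rw [HahnSeries.coeff_single_same, dl_evA_single]
    simp
  · intro i j hij
    have := cf_theta (F := F) τ 2 s i j
    unfold Pool.Agent.TH603.EL.cf at this
    rw [this] at hij
    by_contra hj
    rw [if_neg (fun h => hj h.1)] at hij
    exact hij rfl

end Pool.Agent.TH308.QM
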