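import Pool.Agent.TH308.QM.Germ

/-! The key lemma for quasimonomial valuations: emptiness of a trapezoid implies emptiness of the
plane system. -/

set_option autoImplicit false

namespace Pool.Agent.TH308.QM

open Pool.Agent.TH183.QN Pool.Agent.TH603.EL
open Pool.Agent.TH176.Nag (evL mon Reg)

variable {F : Type} [Field F]

section one
variable (X Y : (PS F)ˣ) {τ s : ℝ} (h0 : 0 < τ) (h1 : τ < 1) (hs : 1 ≤ s)

include h0 h1 hs in
theorem cc_tube_ne (l : ZMod 3) : cc (evg X Y (tube F τ s l)) ≠ 0 := by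
  rw [cc_evg]
  exact evp_tube _ _ h0 h1 hs l

/-- the coordinates as units -/
noncomputable def vu (l : ZMod 3) : (PS (HK F))ˣ := uo _ (cc_tube_ne X Y h0 h1 hs l)

theorem vu_val (l : ZMod 3) : ((vu X Y h0 h1 hs l : (PS (HK F))ˣ) : PS (HK F)) =
    evg X Y (tube F τ s l) := rfl

theorem unit_mon {d : ℕ} {m : ℤ × ℤ} (hm : 0 ≤ m.1 ∧ 0 ≤ m.2 ∧ m.1 + m.2 ≤ d)
    {G : Type*} [CommGroup G] (v0 v1 v2 : G) :
    v0 ^ ((d : ℤ) - m.1 - m.2).toNat * v1 ^ m.1.toNat * v2 ^ m.2.toNat =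
      v0 ^ d * ((v1 * v0⁻¹) ^ m.1 * (v2 * v0⁻¹) ^ m.2) := by
  obtain ⟨a, ha⟩ := Int.eq_ofNat_of_zero_le hm.1
  obtain ⟨b, hb⟩ := Int.eq_ofNat_of_zero_le hm.2.1
  obtain ⟨c, hc⟩ := Int.eq_ofNat_of_zero_le (show 0 ≤ (d : ℤ) - m.1 - m.2 by linarith [hm.2.2])
  rw [hc, ha, hb]
  have hd : d = a + b + c := by
    have := hm.2.2
    omega
  rw [hd]
  simp only [Int.toNat_natCast, zpow_natCast, mul_pow, pow_add, inv_pow]
  have e : ∀ p q r x y : G, r * x * y = p * q * r * (x * p⁻¹ * (y * q⁻¹)) := by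
    intro p q r x y
    have h : p * q * (p⁻¹ * q⁻¹) = 1 := by
      rw [mul_mul_mul_comm, mul_inv_cancel, mul_inv_cancel, one_mul]
    calc r * x * y = r * x * y * (p * q * (p⁻¹ * q⁻¹)) := by rw [h, mul_one]
      _ = p * q * r * (x * p⁻¹ * (y * q⁻¹)) := by ac_rfl
  exact e _ _ _ _ _

theorem ev_hom {d : ℕ} {f : (ℤ × ℤ) →₀ HK F}
    (hf : ∀ m ∈ f.support, 0 ≤ m.1 ∧ 0 ≤ m.2 ∧ m.1 + m.2 ≤ d) :
    evg X Y (Pool.Agent.TH603.EL.ev (tube F τ s) (hom d f)) =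
      ((vu X Y h0 h1 hs 0 ^ d : (PS (HK F))ˣ) : PS (HK F)) *
        Pool.Agent.TH183.QN.ev (vu X Y h0 h1 hs 1 * (vu X Y h0 h1 hs 0)⁻¹)
          (vu X Y h0 h1 hs 2 * (vu X Y h0 h1 hs 0)⁻¹) f := by
  unfold hom Pool.Agent.TH183.QN.ev Finsupp.sum
  rw [map_sum, map_sum, Finset.mul_sum]
  refine Finset.sum_congr rfl fun m hm => ?_
  show evg X Y (Pool.Agent.TH603.EL.ev (tube F τ s) (MvPolynomial.C (f m) * _)) =
    _ * (f m • _)
  simp only [map_mul, map_pow, ev_C, evg_incl, ev_X]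
  rw [mul_smul_comm, ← Units.val_mul, ← unit_mon (hf m hm), MvPowerSeries.smul_eq_C_mul]
  simp only [Units.val_mul, Units.val_pow_eq_pow_val, vu_val]

include h0 h1 hs in
/-- the derivative condition -/
theorem ld_tube (hXY : ld X ≠ 0 ∨ ld Y ≠ 0) :
    ld (vu X Y h0 h1 hs 1 * (vu X Y h0 h1 hs 0)⁻¹) ≠ 0 ∨
      ld (vu X Y h0 h1 hs 2 * (vu X Y h0 h1 hs 0)⁻¹) ≠ 0 := by
  by_contra hcon
  push Not at hcon
  obtain ⟨e1, e2⟩ := hcon
  rw [ld_mul, ld_inv] at e1 e2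
  have n0 := cc_tube_ne X Y h0 h1 hs 0
  have n1 := cc_tube_ne X Y h0 h1 hs 1
  have n2 := cc_tube_ne X Y h0 h1 hs 2
  have f1 : dl (evg X Y (tube F τ s 1)) * cc (evg X Y (tube F τ s 0)) =
      dl (evg X Y (tube F τ s 0)) * cc (evg X Y (tube F τ s 1)) := by
    unfold ld at e1
    rw [vu_val, vu_val] at e1
    field_simp at e1
    linear_combination e1
  have f2 : dl (evg X Y (tube F τ s 2)) * cc (evg X Y (tube F τ s 0)) =
      dl (evg X Y (tube F τ s 0)) * cc (evg X Y (tube F τ s 2)) := by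
    unfold ld at e2
    rw [vu_val, vu_val] at e2
    field_simp at e2
    linear_combination e2
  have hX : ld X = 0 := by
    have g1 : (dl (evg X Y (tube F τ s 1)) * cc (evg X Y (tube F τ s 0))).coeff (τ + 0) =
      (dl (evg X Y (tube F τ s 0)) * cc (evg X Y (tube F τ s 1))).coeff (τ + 0) := by rw [f1]
    rw [(dl_tube1 X Y h0 h1).1.coeff_mul (cc_tube0 X Y h0 h1).1, (dl_tube1 X Y h0 h1).2,
      (cc_tube0 X Y h0 h1).2, ((dl_tube0 X Y h0 h1).mul (cc_tube1 X Y h0 h1)) (τ + 0) (by linarith),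
      mul_one] at g1
    exact (mul_eq_zero.1 g1).resolve_left (cc_unit_ne_zero X)
  have hY : ld Y = 0 := by
    rw [dl_tube_row X Y hX (by decide : (0 : ZMod 3) ≠ 2), zero_mul] at f2
    have g2 := (mul_eq_zero.1 f2).resolve_right n0
    have g3 := dl_tube2 X Y (τ := τ) (s := s) hX
    rw [g2, HahnSeries.coeff_zero] at g3
    exact (mul_eq_zero.1 g3.symm).resolve_left (cc_unit_ne_zero Y)
  rcases hXY with h | h
  · exact h hX
  · exact h hY

end one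

end Pool.Agent.TH308.QM
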