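import Pool.Agent.TH308.QM.Key
import Pool.Agent.TH603.EL.Lead

/-! The key lemma for quasimonomial valuations. -/

set_option autoImplicit false

namespace Pool.Agent.TH308.QM

open Pool.Agent.TH183.QN Pool.Agent.TH603.EL
open Pool.Agent.TH176.Nag (evL mon Reg)

/-- the key lemma for germs: emptiness on the triangle of slope `τ` gives emptiness in the plane -/
theorem EmpW_key {ι : Type} {t c : ι → ℝ} (ht : ∀ i, 0 ≤ t i) {d : ℕ} {τ : ℝ} (h0 : 0 < τ)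
    (h1 : τ < 1)
    (h : EmpW t c (Reg (-((d : ℝ) * (1 + τ))) (d * (2 - τ)) (3 * (1 + τ)) (3 * (2 - τ)))) :
    EmpW t c {m : ℤ × ℤ | 0 ≤ m.1 ∧ 0 ≤ m.2 ∧ m.1 + m.2 ≤ (d : ℤ)} := by
  have h' : EmpW t c {m : ℤ × ℤ | ((m.1 - m.2, m.2) : ℤ × ℤ) ∈
      Reg (-((d : ℝ) * (1 + τ))) (d * (2 - τ)) (3 * (1 + τ)) (3 * (2 - τ))} := by
    refine h.comap ht 1 (-1) 0 1 0 0 (by norm_num) ?_
    intro m hm
    have e : ((1 * m.1 + -1 * m.2 + 0, 0 * m.1 + 1 * m.2 + 0) : ℤ × ℤ) = (m.1 - m.2, m.2) := by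
      ext <;> simp
      ring
    rw [e]
    exact hm
  obtain ⟨F, _, _, X, Y, hXY, hE⟩ := h'
  obtain ⟨s, hs⟩ : ∃ s : ℝ, s = 3 * (d : ℝ) + 4 := ⟨_, rfl⟩
  have hd : (0 : ℝ) ≤ d := Nat.cast_nonneg d
  have hs1 : 3 * (d : ℝ) + 3 < s := by rw [hs]; linarith
  have hs2 : 1 ≤ s := by rw [hs]; linarith
  have hchar : CharZero (HK F) :=
    charZero_of_injective_ringHom (f := (HahnSeries.C : F →+* HK F)) HahnSeries.C_injective
  refine ⟨HK F, inferInstance, hchar,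
    fun i => vu (X i) (Y i) h0 h1 hs2 1 * (vu (X i) (Y i) h0 h1 hs2 0)⁻¹,
    fun i => vu (X i) (Y i) h0 h1 hs2 2 * (vu (X i) (Y i) h0 h1 hs2 0)⁻¹,
    fun i => ld_tube (X i) (Y i) h0 h1 hs2 (hXY i), ?_⟩
  intro f hf hW
  by_contra hne
  have hf' : ∀ m ∈ f.support, 0 ≤ m.1 ∧ 0 ≤ m.2 ∧ m.1 + m.2 ≤ (d : ℤ) := fun m hm => hf hm
  obtain ⟨a, ha, hb⟩ := tube_lead h0 h1 (hom_isHomogeneous hf') (hom_ne_zero hf' hne) hs1
  have h2 : ((Pool.Agent.TH603.EL.ev (tube F τ s) (hom d f)).coeff a).coeff = 0 := by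
    apply hE
    · intro m hm
      have hm' : Pool.Agent.TH603.EL.cf (Pool.Agent.TH603.EL.ev (tube F τ s) (hom d f)) a m.1 m.2 ≠ 0 := by
        have := Finsupp.mem_support_iff.1 hm
        exact this
      obtain ⟨h3, h4, h5⟩ := hb m.1 m.2 hm'
      refine ⟨h3, ?_, ?_⟩
      · push_cast
        linarith
      · push_cast
        linarith
    · intro i
      apply Wt_evg
      rw [ev_hom (X i) (Y i) h0 h1 hs2 hf']
      exact (hW i).mul_left (ht i) _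
  apply ha
  ext m
  rw [h2]
  rfl

end Pool.Agent.TH308.QM
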