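import Pool.Agent.TH183.QN.Emp
import Pool.Agent.TH603.EL.Defs

/-! Coefficientwise evaluation of a Hahn series of Laurent polynomials at a germ. -/

set_option autoImplicit false

namespace Pool.Agent.TH308.QM

open Pool.Agent.TH183.QN Pool.Agent.TH603.EL
open Pool.Agent.TH176.Nag (evL mon)

/-- multiplication of Hahn series with larger sets of exponents -/
theorem coeff_mul_both {R : Type*} [NonUnitalNonAssocSemiring R] {x y : HahnSeries ℝ R} {a : ℝ}
    {s t : Set ℝ} (hs : s.IsPWO) (ht : t.IsPWO) (hx : x.support ⊆ s) (hy : y.support ⊆ t) :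
    (x * y).coeff a = ∑ ij ∈ Finset.antidiagonal hs ht a, x.coeff ij.1 * y.coeff ij.2 := by
  rw [HahnSeries.coeff_mul]
  refine Finset.sum_subset (fun ij h => ?_) (fun ij h h' => ?_)
  · rw [Finset.mem_antidiagonal] at h ⊢
    exact ⟨hx h.1, hy h.2.1, h.2.2⟩
  · rw [Finset.mem_antidiagonal] at h h'
    by_contra hne
    apply h'
    refine ⟨?_, ?_, h.2.2⟩
    · intro h0
      exact hne (by rw [h0, zero_mul])
    · intro h0
      exact hne (by rw [h0, mul_zero])

/-- a ring homomorphism applied to all coefficients -/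
noncomputable def hm {A B : Type*} [Semiring A] [Semiring B] (φ : A →+* B) :
    HahnSeries ℝ A →+* HahnSeries ℝ B where
  toFun u := u.map φ
  map_one' := by
    ext a
    simp only [HahnSeries.map_coeff, HahnSeries.coeff_one]
    split_ifs <;> simp
  map_mul' u v := HahnSeries.map_mul (φ : A →ₙ+* B)
  map_zero' := by ext; simp
  map_add' x y := by ext; simp

theorem hm_coeff {A B : Type*} [Semiring A] [Semiring B] (φ : A →+* B) (u : HahnSeries ℝ A)
    (a : ℝ) : (hm φ u).coeff a = φ (u.coeff a) := rfl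

variable {F : Type} [Field F]

/-- Hahn series of power series as power series over the Hahn series -/
noncomputable def swf (u : HahnSeries ℝ (PS F)) : PS (HK F) :=
  fun e => u.map (MvPowerSeries.coeff (R := F) e)

theorem coeff_swf (u : HahnSeries ℝ (PS F)) (e : Fin 2 →₀ ℕ) (a : ℝ) :
    (MvPowerSeries.coeff e (swf u)).coeff a = MvPowerSeries.coeff e (u.coeff a) := rfl

/-- Hahn series of power series as power series over the Hahn series -/
noncomputable def sw : HahnSeries ℝ (PS F) →+* PS (HK F) where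
  toFun := swf
  map_one' := by
    classical
    ext e a
    rw [coeff_swf, HahnSeries.coeff_one, MvPowerSeries.coeff_one]
    by_cases ha : a = 0
    · by_cases he : e = 0
      · simp [ha, he]
      · simp [ha, he, MvPowerSeries.coeff_one]
    · by_cases he : e = 0
      · simp [ha, he, HahnSeries.coeff_one]
      · simp [ha, he]
  map_mul' u v := by
    classical
    ext e a
    rw [coeff_swf, HahnSeries.coeff_mul, map_sum, MvPowerSeries.coeff_mul, HahnSeries.coeff_sum]
    have h1 : ∀ p ∈ Finset.HasAntidiagonal.antidiagonal e,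
        (MvPowerSeries.coeff p.1 (swf u) * MvPowerSeries.coeff p.2 (swf v)).coeff a =
        ∑ ij ∈ Finset.antidiagonal u.isPWO_support v.isPWO_support a,
          MvPowerSeries.coeff p.1 (u.coeff ij.1) * MvPowerSeries.coeff p.2 (v.coeff ij.2) := by
      intro p _
      rw [coeff_mul_both u.isPWO_support v.isPWO_support]
      · rfl
      · intro b hb hb'
        apply hb
        show MvPowerSeries.coeff p.1 (u.coeff b) = 0
        rw [hb', map_zero]
      · intro b hb hb'
        apply hb
        show MvPowerSeries.coeff p.2 (v.coeff b) = 0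
        rw [hb', map_zero]
    rw [Finset.sum_congr rfl h1, Finset.sum_comm]
    refine Finset.sum_congr rfl fun ij _ => ?_
    rw [MvPowerSeries.coeff_mul]
  map_zero' := by
    ext e a
    rw [coeff_swf]
    simp
  map_add' u v := by
    ext e a
    rw [map_add, HahnSeries.coeff_add, coeff_swf, coeff_swf, coeff_swf, HahnSeries.coeff_add,
      map_add]

/-- evaluation at a germ, coefficient by coefficient -/
noncomputable def evg (X Y : (PS F)ˣ) : HR F →+* PS (HK F) :=
  (sw (F := F)).comp (hm ((evA X Y : Lau F →ₐ[F] PS F) : Lau F →+* PS F))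

theorem coeff_evg (X Y : (PS F)ˣ) (w : HR F) (e : Fin 2 →₀ ℕ) (a : ℝ) :
    (MvPowerSeries.coeff e (evg X Y w)).coeff a = MvPowerSeries.coeff e (evA X Y (w.coeff a)) := rfl

theorem evg_incl (X Y : (PS F)ˣ) (c : HK F) : evg X Y (incl c) = MvPowerSeries.C c := by
  classical
  ext e a
  rw [coeff_evg, MvPowerSeries.coeff_C]
  have h1 : (incl c).coeff a = algebraMap F (Lau F) (c.coeff a) := rfl
  rw [h1, AlgHom.commutes, MvPowerSeries.algebraMap_apply, MvPowerSeries.coeff_C]
  split_ifs <;> simp

theorem Wt_evg {X Y : (PS F)ˣ} {t c : ℝ} {w : HR F} (h : Wt t c (evg X Y w)) (a : ℝ) :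
    Wt t c (Pool.Agent.TH183.QN.ev X Y (w.coeff a).coeff) := by
  intro e he
  rw [← evA_apply, ← coeff_evg, h e he, HahnSeries.coeff_zero]

/-- the constant coefficient as a homomorphism of units -/
theorem cc_zpow (X Y : (PS F)ˣ) (i j : ℤ) :
    cc ((X ^ i * Y ^ j : (PS F)ˣ) : PS F) = cc (X : PS F) ^ i * cc (Y : PS F) ^ j := by
  have h : ∀ (Z : (PS F)ˣ), cc (Z : PS F) =
      ((Units.map (MvPowerSeries.constantCoeff (σ := Fin 2) (R := F)).toMonoidHom Z : Fˣ) : F) :=
    fun Z => rfl
  rw [h, h, h, map_mul, map_zpow, map_zpow, Units.val_mul, Units.val_zpow_eq_zpow_val,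
    Units.val_zpow_eq_zpow_val]

theorem dl_zpow (X Y : (PS F)ˣ) (i j : ℤ) :
    dl ((X ^ i * Y ^ j : (PS F)ˣ) : PS F) =
      cc (X : PS F) ^ i * cc (Y : PS F) ^ j * (i * ld X + j * ld Y) := by
  have h := ld_mul (X ^ i) (Y ^ j)
  rw [ld_zpow, ld_zpow] at h
  rw [← cc_zpow, ← h]
  unfold ld
  rw [mul_div_cancel₀]
  exact cc_unit_ne_zero _

theorem evA_cc (X Y : (PS F)ˣ) (f : Lau F) :
    cc (evA X Y f) = evL (cc (X : PS F)) (cc (Y : PS F)) (cc_unit_ne_zero X) (cc_unit_ne_zero Y) f := by
  induction f using AddMonoidAlgebra.induction_linear with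
  | zero => rw [map_zero, map_zero]; exact map_zero _
  | add f g hf hg => rw [map_add, map_add, ← hf, ← hg]; exact map_add _ _ _
  | single m c =>
    have h1 : (AddMonoidAlgebra.single m c : Lau F) = c • mon F m := by
      simp [mon]
    rw [h1, map_smul, map_smul, evA_mon, Pool.Agent.TH176.Nag.evL_mon, ← cc_zpow]
    unfold cc
    rw [MvPowerSeries.smul_eq_C_mul, map_mul, MvPowerSeries.constantCoeff_C, smul_eq_mul]

theorem cc_evg (X Y : (PS F)ˣ) (w : HR F) :
    cc (evg X Y w) = evp (cc_unit_ne_zero X) (cc_unit_ne_zero Y) w := by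
  ext a
  rw [evp_coeff, ← evA_cc]
  exact coeff_evg X Y w 0 a

theorem dl_evg (X Y : (PS F)ˣ) (w : HR F) (a : ℝ) :
    (dl (evg X Y w)).coeff a = dl (evA X Y (w.coeff a)) := coeff_evg X Y w _ a

end Pool.Agent.TH308.QM
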